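import Pool.Agent.JWW.AllRows

/-!
# Two-edge-colourings of cubic graphs of cutwidth at most five

If the vertices of a cubic graph can be ordered such that every initial segment has at most five
edges to the remaining vertices, then the graph has a 2-edge-colouring in which every monochromatic
component has at most four edges. The proof: the initial segments are changed such that every vertex
with two neighbours in the segment belongs to it; then the restrictions of suitable colourings to the
segments with at most four boundary edges are always worse or equal to one of 670 tables, and this is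
checked by the kernel.
-/

set_option autoImplicit false

namespace Pool.Agent.Results.MP_a33606_co.CutwidthFive

open Pool.Agent.JWW

/-- Every cubic graph of cutwidth at most five has a 2-edge-colouring in which every monochromatic
component has at most four edges. -/
theorem result (V : Type) [Fintype V] [DecidableEq V] (G : SimpleGraph V) [DecidableRel G.Adj]
    (hG : G.IsRegularOfDegree 3)
    (hcut : ∃ σ : V → ℕ, Function.Injective σ ∧ ∀ k : ℕ,
      {e : Sym2 V | e ∈ G.edgeSet ∧ (∃ v ∈ e, σ v < k) ∧ (∃ v ∈ e, k ≤ σ v)}.ncard ≤ 5) :
    ∃ c : Sym2 V → Bool, ∀ (b : Bool) (v : V),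
      {e : Sym2 V |
        e ∈ (SimpleGraph.fromEdgeSet {e : Sym2 V | e ∈ G.edgeSet ∧ c e = b}).edgeSet ∧
        ∀ w ∈ e, (SimpleGraph.fromEdgeSet {e : Sym2 V | e ∈ G.edgeSet ∧ c e = b}).Reachable v w}.ncard
          ≤ 4 := by
  obtain ⟨σ, hσ, hcut⟩ := hcut
  rcases isEmpty_or_nonempty V with hV | hV
  · exact ⟨fun _ => true, fun _ v => (hV.false v).elim⟩
  · have h1 : ∀ j, (bd G (Finset.univ.filter (fun v => σ v < j))).card ≤ 5 := by
      intro j
      refine le_trans (le_of_eq ?_) (hcut j)
      rw [← Set.ncard_coe_finset]
      congr 1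
      ext e
      rw [Finset.mem_coe, mem_bd, SimpleGraph.mem_edgeFinset]
      simp only [Finset.mem_filter, Finset.mem_univ, true_and, not_lt]
      constructor
      · rintro ⟨h, ⟨v, hv, hve⟩, w, hw, hwe⟩
        exact ⟨h, ⟨v, hve, hv⟩, w, hwe, hw⟩
      · rintro ⟨h, ⟨v, hve, hv⟩, w, hwe, hw⟩
        exact ⟨h, ⟨v, hv, hve⟩, w, hw, hwe⟩
    obtain ⟨t, s, h2⟩ := exists_lab cert hG hσ h1
    exact colouring_of_lab h2

end Pool.Agent.Results.MP_a33606_co.CutwidthFive
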