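import Pool.Agent.JWG.Long

set_option autoImplicit false

namespace Pool.Agent.Results.MP_a33606_co.LargeGirth

/-- Let `G` be a finite bipartite cubic graph with a perfect matching `M` such that every cycle of `G`
with at most two edges in `M` has length at least 140000 (for instance any bipartite cubic graph of
girth at least 140000, with any perfect matching). Then `G` has a 2-edge-colouring in which every
monochromatic component has at most four edges. -/
theorem result {V : Type*} [Fintype V] [DecidableEq V] (G : SimpleGraph V) [DecidableRel G.Adj]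
    (hreg : G.IsRegularOfDegree 3) (hbip : G.IsBipartite) (M : G.Subgraph)
    (hM : M.IsPerfectMatching)
    (hC : ∀ (v : V) (C : G.Walk v v), C.IsCycle →
      {e : Sym2 V | e ∈ C.edges ∧ e ∈ M.edgeSet}.ncard ≤ 2 → 140000 ≤ C.length) :
    ∃ c : Sym2 V → Bool, ∀ (b : Bool) (v : V),
      {e : Sym2 V |
        e ∈ (SimpleGraph.fromEdgeSet {e : Sym2 V | e ∈ G.edgeSet ∧ c e = b}).edgeSet ∧
        ∀ w ∈ e, (SimpleGraph.fromEdgeSet {e : Sym2 V | e ∈ G.edgeSet ∧ c e = b}).Reachable
          v w}.ncard ≤ 4 := by
  refine Pool.Agent.JWG.longCycles G hreg hbip M.spanningCoe M.spanningCoe_le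
    (fun v => ?_) fun v C hC1 hC2 => ?_
  · exact SimpleGraph.Subgraph.isPerfectMatching_iff.1 hM v
  · by_contra h
    have h1 : {e : Sym2 V | e ∈ C.edges ∧ e ∈ M.edgeSet} =
        {e | e ∈ C.edges ∧ e ∈ M.spanningCoe.edgeSet} := by
      rw [SimpleGraph.Subgraph.edgeSet_spanningCoe]
    have h2 := hC v C hC1 (by rw [h1]; omega)
    omega

end Pool.Agent.Results.MP_a33606_co.LargeGirth
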