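import Pool.Agent.JW.PC

set_option autoImplicit false

namespace Pool.Agent.Results.MP_a33606_co.PerfectCode

/-- Let `G` be a finite cubic graph with a perfect code `X` (every vertex has exactly one element of
`X` in its closed neighbourhood) such that no connected component of `G - X` has order congruent to
`2` modulo `3`. Then `G` has a 2-edge-colouring in which every monochromatic component has at most
four edges. -/
theorem result {V : Type*} [Fintype V] [DecidableEq V] (G : SimpleGraph V) [DecidableRel G.Adj]
    (hreg : G.IsRegularOfDegree 3) (X : Set V)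
    (hX : ∀ v, ∃! x, x ∈ X ∧ (x = v ∨ G.Adj x v))
    (hC : ∀ C : (G.induce Xᶜ).ConnectedComponent, C.supp.ncard % 3 ≠ 2) :
    ∃ c : Sym2 V → Bool, ∀ (b : Bool) (v : V),
      {e : Sym2 V |
        e ∈ (SimpleGraph.fromEdgeSet {e : Sym2 V | e ∈ G.edgeSet ∧ c e = b}).edgeSet ∧
        ∀ w ∈ e, (SimpleGraph.fromEdgeSet {e : Sym2 V | e ∈ G.edgeSet ∧ c e = b}).Reachable
          v w}.ncard ≤ 4 :=
  Pool.Agent.JW.perfectCode G hreg X hX hC

end Pool.Agent.Results.MP_a33606_co.PerfectCode
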