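import Pool.Agent.JW.TwoFactor

set_option autoImplicit false

namespace Pool.Agent.Results.MP_a33606_co.TwoFactorFour

/-- Let `G` be a finite bipartite cubic graph with a 2-factor `F` (a spanning 2-regular subgraph) in
which every cycle has a number of vertices divisible by four (for instance a Hamiltonian bipartite
cubic graph of order divisible by four). Then `G` has a 2-edge-colouring in which every monochromatic
component has at most four edges. -/
theorem result {V : Type*} [Fintype V] [DecidableEq V] (G : SimpleGraph V) [DecidableRel G.Adj]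
    (hreg : G.IsRegularOfDegree 3) (hbip : G.IsBipartite) (F : SimpleGraph V)
    (hFG : F ≤ G) (hF : ∀ v, {w | F.Adj v w}.ncard = 2)
    (hC : ∀ C : F.ConnectedComponent, 4 ∣ C.supp.ncard) :
    ∃ c : Sym2 V → Bool, ∀ (b : Bool) (v : V),
      {e : Sym2 V |
        e ∈ (SimpleGraph.fromEdgeSet {e : Sym2 V | e ∈ G.edgeSet ∧ c e = b}).edgeSet ∧
        ∀ w ∈ e, (SimpleGraph.fromEdgeSet {e : Sym2 V | e ∈ G.edgeSet ∧ c e = b}).Reachable
          v w}.ncard ≤ 4 :=
  Pool.Agent.JW.twoFactorFour G hreg hbip F hFG hF hC

end Pool.Agent.Results.MP_a33606_co.TwoFactorFour
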